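import Pool.Agent.H9.WMC.Thy

/-!
Weight-monodromy for smooth projective varieties, for algebras and for all varieties.
-/

namespace Pool.WMC

open Module MvPolynomial Pool.H73.WM Pool.H9.WMC

private theorem GEO_sub {q : ℕ} {Ω : Type} [Field Ω] [CharZero Ω] (M : FN q Ω)
    (h : Subsingleton M.V) (w : ℤ) : M.WM w := by
  refine ⟨fun _ => ⊤, ⟨fun _ _ _ => le_rfl, ⟨0, Subsingleton.elim _ _⟩, ⟨0, rfl⟩, ?_, ?_, ?_⟩,
    ?_, ?_⟩
  · intro _ _ _
    exact Submodule.mem_top
  · intro _ _ _ _
    exact Submodule.mem_top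
  · intro _ _ _
    exact ⟨0, Submodule.mem_top, Submodule.mem_top⟩
  · intro _ _ _
    exact Submodule.mem_top
  · intro _ _ _ hx
    exact absurd Submodule.mem_top hx

private theorem GEO_span {R : Type} [CommRing R] {r : ℕ} (f : Fin r → R) (g : R) :
    Ideal.span (Set.range (Fin.snoc f g : Fin (r + 1) → R)) =
      Ideal.span (Set.range f) ⊔ Ideal.span {g} := by
  rw [Fin.range_snoc, Ideal.span_insert, sup_comm]

/-- `Quo f / (g)` is `Quo (f, g)`. -/
private noncomputable def GEO_snoc {k : Type} [Field k] {R : Type} [CommRing R] [Algebra k R]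
    {r : ℕ} (f : Fin r → R) (g : R) :
    Quo (Fin.snoc f g : Fin (r + 1) → R) ≃ₐ[k]
      (Quo f ⧸ Ideal.span {Ideal.Quotient.mk (Ideal.span (Set.range f)) g}) :=
  have h : Ideal.span {Ideal.Quotient.mk (Ideal.span (Set.range f)) g} =
      (Ideal.span {g}).map (Ideal.Quotient.mkₐ k (Ideal.span (Set.range f))) := by
    rw [Ideal.map_span, Set.image_singleton]
    rfl
  ((Ideal.quotientEquivAlgOfEq k (GEO_span f g)).trans
    (DoubleQuot.quotQuotEquivQuotSupₐ k (Ideal.span (Set.range f)) (Ideal.span {g})).symm).trans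
    (Ideal.quotientEquivAlgOfEq k h.symm)

/-- A further free variable. -/
private theorem GEO_free {k : Type} [Field k] {n r : ℕ} (f : Fin r → MvPolynomial (Fin n) k) :
    Nonempty (Quo (fun e => rename Fin.succ (f e)) ≃ₐ[k] Polynomial (Quo f)) := by
  have h1 : ∀ p : MvPolynomial (Fin n) k,
      finSuccEquiv k n (rename Fin.succ p) = Polynomial.C p := by
    intro p
    have h2 : ((finSuccEquiv k n).toAlgHom.comp (rename Fin.succ)) =
        (Algebra.ofId (MvPolynomial (Fin n) k)
          (Polynomial (MvPolynomial (Fin n) k))).restrictScalars k := by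
      apply MvPolynomial.algHom_ext
      intro i
      show finSuccEquiv k n (rename Fin.succ (X i)) = Polynomial.C (X i)
      rw [rename_X, finSuccEquiv_X_succ]
    exact DFunLike.congr_fun h2 p
  have h3 : (Ideal.span (Set.range f)).map (Polynomial.C : _ →+* Polynomial _) =
      (Ideal.span (Set.range fun e => rename Fin.succ (f e))).map
        ((finSuccEquiv k n) : MvPolynomial (Fin (n + 1)) k →+*
          Polynomial (MvPolynomial (Fin n) k)) := by
    rw [Ideal.map_span, Ideal.map_span, ← Set.range_comp, ← Set.range_comp]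
    congr 2
    funext e
    exact (h1 (f e)).symm
  have e1 := Ideal.quotientEquivAlg (R₁ := k) _ _ (finSuccEquiv k n) h3
  have e2 : Polynomial (Quo f) ≃ₐ[k]
      (Polynomial (MvPolynomial (Fin n) k) ⧸ (Ideal.span (Set.range f)).map
        (Polynomial.C : _ →+* Polynomial _)) :=
    AlgEquiv.ofRingEquiv (f := Ideal.polynomialQuotientEquivQuotientPolynomial
      (Ideal.span (Set.range f))) (by
        intro x
        have h4 : algebraMap k (Polynomial (Quo f)) x =
            (Polynomial.C (MvPolynomial.C x : MvPolynomial (Fin n) k)).map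
              (Ideal.Quotient.mk (Ideal.span (Set.range f))) := by
          rw [Polynomial.map_C]
          rfl
        rw [h4, Ideal.polynomialQuotientEquivQuotientPolynomial_map_mk]
        rfl)
  exact ⟨e1.trans e2.symm⟩

private theorem GEO_down {k : Type} [Field k] {P : Pred k} (hP : Good P) {n : ℕ}
    (h : ∀ (r : ℕ) (f : Fin r → MvPolynomial (Fin (n + 1)) k), P (Quo f)) (r : ℕ)
    (f : Fin r → MvPolynomial (Fin n) k) : P (Quo f) := by
  obtain ⟨e⟩ := GEO_free f
  exact hP.unline _ (hP.iso _ _ e (h r _))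

private theorem GEO_down' {k : Type} [Field k] {P : Pred k} (hP : Good P) {m n : ℕ} (hnm : n ≤ m)
    (h : ∀ (r : ℕ) (f : Fin r → MvPolynomial (Fin m) k), P (Quo f)) :
    ∀ (r : ℕ) (f : Fin r → MvPolynomial (Fin n) k), P (Quo f) := by
  induction m, hnm using Nat.le_induction with
  | base => exact h
  | succ m hm ih => exact ih (GEO_down hP h)

theorem geo_thm (h1 : GOOStmt) : GEOStmt := by
  intro k _ G q Ω _ _ _ hq C
  obtain ⟨hX, hZ, hU, h0, hk, hG⟩ := h1 G hq C
  constructor
  · intro hY
    have key : ∀ n : ℕ, ∀ X : G.Var, G.size X = n → C.WM X := by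
      intro n
      induction n using Nat.strong_induction_on with
      | h n ih =>
        intro X hn
        by_cases hz : G.size X = 0
        · exact h0 X hz
        · obtain ⟨Z, U, Y, D, hZs, hDs, hc1, hc2, hsm⟩ := G.resolution X hz
          have e1 : C.WM Z := ih _ (hn ▸ hZs) Z rfl
          have e2 : C.WM D := ih _ (hn ▸ hDs) D rfl
          have e3 : C.WM Y := by
            intro w i
            by_cases hwi : w = i
            · rw [hwi]
              exact hY Y hsm i
            · exact GEO_sub _ (C.pure Y w i hsm hwi) w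
          exact hX X Z U hc1 e1 (hU Y D U hc2 e3 e2)
    exact fun X => key _ X rfl
  · intro m hm
    have key : ∀ n : ℕ, ∀ X : G.Var, G.size X = n → n ≤ m → C.WM X := by
      intro n
      induction n using Nat.strong_induction_on with
      | h n ih =>
        intro X hn hnm
        by_cases hz : G.size X = 0
        · exact h0 X hz
        · obtain ⟨Z, r, f, g, hft, hZs, hc⟩ := G.affine X hz
          have e1 : C.WM Z := ih _ (hn ▸ hZs) Z rfl ((hn ▸ hZs).le.trans hnm)
          have e2 := GEO_down' hG (hn.symm ▸ hnm : G.size X ≤ m) hm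
          obtain ⟨g0, rfl⟩ := Ideal.Quotient.mk_surjective g
          have e3 : C.WMA (Quo f ⧸ Ideal.span {Ideal.Quotient.mk (Ideal.span (Set.range f)) g0}) :=
            hG.iso _ _ (GEO_snoc (k := k) f g0) (e2 (r + 1) (Fin.snoc f g0))
          obtain ⟨_, e4⟩ := hG.opn _ _ (e2 r f) e3
          exact hX X Z _ hc e1 e4
    exact fun X hXm => key _ X rfl hXm

end Pool.WMC
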